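import Pool.Agent.H50.NC.Targets

/-!
# Row EXT (board nck): existence of the exit
-/

set_option autoImplicit false

namespace Pool.Agent.H54.NCK

open Pool.Agent.H48.ER Pool.Agent.H50.NC

theorem pf_EXT : T_EXT := by
  intro V G n a b P S hP hPS
  have hne : (P ∩ Sᶜ).Nonempty := by
    obtain ⟨v, hv, hvS⟩ := Set.not_subset.1 hPS
    exact ⟨v, hv, hvS⟩
  obtain ⟨i, j, g, R1, R2, h1, h2, hg, hij, hU, hI, _, hR⟩ := c_FST V G n a b P Sᶜ hP hne
  have hgb : g = b → j = 0 := by
    intro e
    by_contra hj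
    exact h2.ne (by omega) e
  have hmem : ∀ v ∈ R1, v = g ∨ v ∈ S := by
    intro v hv
    by_cases hvS : v ∈ S
    · exact Or.inr hvS
    · exact Or.inl (hR v hv hvS)
  have hR1 : R1 ⊆ P := by
    rw [← hU]
    exact Set.subset_union_left
  refine ⟨i, g, ⟨R1, h1, hR1, hg, hmem⟩, by omega, hR1 h1.right_mem, ⟨?_, ?_⟩, ⟨?_, ?_⟩, ?_⟩
  · intro e
    have := hgb e
    omega
  · intro e
    have hj : j = 0 := by omega
    subst hj
    exact h2.eq_of_zero.1
  · intro e
    by_contra hi
    exact h1.ne (by omega) e.symm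
  · intro e
    subst e
    exact h1.eq_of_zero.1.symm
  · intro e
    have hj := hgb e
    subst hj
    have hR2 : R2 = {g} := h2.eq_of_zero.2
    subst e
    refine ⟨hg, fun v hv => ?_⟩
    rw [← hU] at hv
    rcases hv with hv | hv
    · exact hmem v hv
    · rw [hR2] at hv
      exact Or.inl hv

end Pool.Agent.H54.NCK
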