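import Pool.Agent.H50.NC.Targets

/-!
# Row F2 (board nck): nonadjacent majors
-/

set_option autoImplicit false

namespace Pool.Agent.H54.NCK

open Pool.Agent.H48.ER Pool.Agent.H50.NC

/-- a major is adjacent to exactly two of the corners -/
theorem major_two {V : Type} {G : SimpleGraph V} {a : Fin 3 → V} {i : Fin 3} {w : V}
    (hK : NK4 G) (ht : ∀ p q : Fin 3, p ≠ q → G.Adj (a p) (a q)) (hM : Mj G a i w) :
    ∃ s, ¬ G.Adj w (a s) ∧ ∀ j, j ≠ s → G.Adj w (a j) := by
  have hnot : ¬ (G.Adj w (a 0) ∧ G.Adj w (a 1) ∧ G.Adj w (a 2)) := by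
    rintro ⟨h0, h1, h2⟩
    exact hK w (a 0) (a 1) (a 2) h0 h1 h2 (ht 0 1 (by decide)) (ht 0 2 (by decide))
      (ht 1 2 (by decide))
  have key : ∃ p q : Fin 3, p ≠ q ∧ G.Adj w (a p) ∧ G.Adj w (a q) := by
    rcases hM with h | ⟨h, j, hj, h'⟩
    · fin_cases i
      · exact ⟨1, 2, by decide, h 1 (by decide), h 2 (by decide)⟩
      · exact ⟨0, 2, by decide, h 0 (by decide), h 2 (by decide)⟩
      · exact ⟨0, 1, by decide, h 0 (by decide), h 1 (by decide)⟩
    · exact ⟨i, j, Ne.symm hj, h, h'⟩
  obtain ⟨p, q, hpq, hp, hq⟩ := key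
  have h3 : ∃ s : Fin 3, ∀ j, j ≠ s → G.Adj w (a j) := by
    have hall : ∀ p q : Fin 3, p ≠ q → ∃ s : Fin 3, ∀ j, j ≠ s → j = p ∨ j = q := by decide
    obtain ⟨s, hs⟩ := hall p q hpq
    refine ⟨s, fun j hj => ?_⟩
    rcases hs j hj with e | e
    · rw [e]; exact hp
    · rw [e]; exact hq
  obtain ⟨s, hs⟩ := h3
  refine ⟨s, fun h => hnot ?_, hs⟩
  have hall : ∀ j, G.Adj w (a j) := by
    intro j
    by_cases hj : j = s
    · rw [hj]; exact h
    · exact hs j hj
  exact ⟨hall 0, hall 1, hall 2⟩

theorem pf_F2 : T_F2 := by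
  intro V G a b n P i S w w' hN hK hS _ _ hne hnadj haw hbw haw' hbw'
  have hP : Prism G a b n P := hS.pr.1
  have hev := hS.pr.2
  obtain ⟨s, hs, hs2⟩ := major_two hK (fun p q h => hP.a_adj h) haw
  obtain ⟨s', hs', hs2'⟩ := major_two hK (fun p q h => hP.a_adj h) haw'
  obtain ⟨t, _, ht2⟩ := major_two hK (fun p q h => hP.b_adj h) hbw
  obtain ⟨t', _, ht2'⟩ := major_two hK (fun p q h => hP.b_adj h) hbw'
  by_cases hss : s = s'
  · subst hss
    intro j
    by_cases hj : j = s
    · rw [hj]
      exact ⟨fun h => (hs h).elim, fun h => (hs' h).elim⟩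
    · exact ⟨fun _ => hs2' j hj, fun _ => hs2 j hj⟩
  · exfalso
    have h1 : G.Adj w (a s') := hs2 s' (Ne.symm hss)
    have h2 : G.Adj w' (a s) := hs2' s hss
    have hm : ∀ p q : Fin 3, ∃ m : Fin 3, m ≠ p ∧ m ≠ q := by decide
    obtain ⟨m, hmt, hmt'⟩ := hm t t'
    have hbmw : G.Adj w (b m) := ht2 m hmt
    have hbmw' : G.Adj w' (b m) := ht2' m hmt'
    have hnab : ∀ j, ¬ G.Adj (b m) (a j) := by
      intro j h
      by_cases hj : m = j
      · subst hj
        have := (hP.ip m).adj_iff.1 h.symm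
        have h4 := hev m
        rw [this] at h4
        exact absurd h4 (by decide)
      · rcases (hP.adj m j hj (b m) (hP.b_mem m) (a j) (hP.a_mem j)).1 h with ⟨e, _⟩ | ⟨_, e⟩
        · exact hP.a_ne_b m m e.symm
        · exact hP.a_ne_b j j e
    have hws : w ≠ a s := by
      intro e
      apply hnadj
      rw [e]
      exact h2.symm
    have hws' : w' ≠ a s' := by
      intro e
      apply hnadj
      rw [e]
      exact h1
    have p1 : IP G 1 (a s') (a s) {a s', a s} := IP.edge (hP.a_adj (Ne.symm hss))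
    have p2 : IP G (1 + 1) w (a s) (insert w {a s', a s}) := by
      refine p1.cons ?_ ?_
      · rintro (e | e)
        · exact h1.ne e
        · exact hws e
      · rintro u (e | e)
        · rw [e]
          exact ⟨fun _ => rfl, fun _ => h1⟩
        · rw [Set.mem_singleton_iff] at e
          rw [e]
          exact ⟨fun h => (hs h).elim, fun h => by rw [h]; exact h1⟩
    have p3 : IP G (1 + 1 + 1) w w' (insert w' (insert w {a s', a s})) := by
      refine p2.snoc ?_ ?_
      · rintro (e | e | e)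
        · exact hne e.symm
        · exact hws' e
        · exact h2.ne e
      · rintro u (e | e | e)
        · rw [e]
          exact ⟨fun h => (hnadj h.symm).elim, fun h => (hws h).elim⟩
        · rw [e]
          exact ⟨fun h => (hs' h).elim, fun h => by rw [h]; exact h2⟩
        · rw [Set.mem_singleton_iff] at e
          rw [e]
          exact ⟨fun _ => rfl, fun _ => h2⟩
    have h5 := hN (1 + 1 + 1) w w' (b m) _ p3 (by norm_num) (by
      rintro (e | e | e | e)
      · exact hbmw'.ne e.symm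
      · exact hbmw.ne e.symm
      · exact hP.a_ne_b s' m e.symm
      · exact hP.a_ne_b s m e.symm) hbmw.symm hbmw'.symm (by
      rintro u (e | e | e | e) hu
      · exact Or.inr e
      · exact Or.inl e
      · rw [e] at hu
        exact (hnab s' hu).elim
      · rw [Set.mem_singleton_iff] at e
        rw [e] at hu
        exact (hnab s hu).elim)
    exact absurd h5 (by decide)

end Pool.Agent.H54.NCK
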